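import Mathlib
import Pool.Agent.H77R2.AssocLie
import Pool.Agent.Q28.FreeLieV

/-!
The Lie ring `E_0^*(IA_3)` is not a free Lie algebra modulo quadratic relations.
-/

namespace Pool.Agent.Results.MP_df4ecf_al.IAThreeNotQuadratic

open BurnLie Q28.FreeLieV
open scoped commutatorElement

/-- The group `IA_n` of the automorphisms of the free group `F_n` which induce the identity on
`F_n / [F_n, F_n]`. -/
def IA (n : ℕ) : Subgroup (MulAut (FreeGroup (Fin n))) where
  carrier := {φ | ∀ w : FreeGroup (Fin n), Abelianization.of (φ w) = Abelianization.of w}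
  one_mem' _ := rfl
  mul_mem' {φ ψ} hφ hψ w := by
    rw [MulAut.mul_apply, hφ, hψ]
  inv_mem' {φ} hφ w := by
    have h := hφ (φ⁻¹ w)
    rw [MulAut.apply_inv_self] at h
    exact h.symm

/-- Some Magnus coefficients: `c i` is the coefficient of `X_i`, `d j` the one of `X_1 X_j`, and
`t` the one of `X_1 X_1 X_2`, where the variables are `X_0, X_1, X_2`. -/
@[ext]
structure Mag where
  c : Fin 3 → ℤ
  d : Fin 3 → ℤ
  t : ℤ

namespace Mag

instance : Mul Mag := ⟨fun x y => ⟨fun i => x.c i + y.c i, fun j => x.d j + y.d j + x.c 1 * y.c j,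
  x.t + y.t + x.d 1 * y.c 2 + x.c 1 * y.d 2⟩⟩

instance : One Mag := ⟨⟨fun _ => 0, fun _ => 0, 0⟩⟩

instance : Inv Mag := ⟨fun x => ⟨fun i => -x.c i, fun j => -x.d j + x.c 1 * x.c j,
  -x.t + x.d 1 * x.c 2 + x.c 1 * x.d 2 - x.c 1 * x.c 1 * x.c 2⟩⟩

theorem mul_c (x y : Mag) (i : Fin 3) : (x * y).c i = x.c i + y.c i := rfl
theorem mul_d (x y : Mag) (j : Fin 3) : (x * y).d j = x.d j + y.d j + x.c 1 * y.c j := rfl
theorem mul_t (x y : Mag) : (x * y).t = x.t + y.t + x.d 1 * y.c 2 + x.c 1 * y.d 2 := rfl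
theorem one_c (i : Fin 3) : (1 : Mag).c i = 0 := rfl
theorem one_d (i : Fin 3) : (1 : Mag).d i = 0 := rfl
theorem one_t : (1 : Mag).t = 0 := rfl
theorem inv_c (x : Mag) (i : Fin 3) : x⁻¹.c i = - x.c i := rfl
theorem inv_d (x : Mag) (j : Fin 3) : x⁻¹.d j = -x.d j + x.c 1 * x.c j := rfl
theorem inv_t (x : Mag) : x⁻¹.t = -x.t + x.d 1 * x.c 2 + x.c 1 * x.d 2 - x.c 1 * x.c 1 * x.c 2 :=
  rfl

instance : Group Mag := Group.ofLeftAxioms
  (by
    intro x y z
    ext i
    · simp only [mul_c]; ring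
    · simp only [mul_c, mul_d]; ring
    · simp only [mul_c, mul_d, mul_t]; ring)
  (by
    intro x
    ext i
    · simp only [mul_c, one_c]; ring
    · simp only [mul_d, one_c, one_d]; ring
    · simp only [mul_t, one_c, one_d, one_t]; ring)
  (by
    intro x
    ext i
    · simp only [mul_c, inv_c, one_c]; ring
    · simp only [mul_d, inv_c, inv_d, one_d]; ring
    · simp only [mul_t, inv_c, inv_d, inv_t, one_t]; ring)

end Mag

/-- The free group of rank three. -/
abbrev F : Type := FreeGroup (Fin 3)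

/-- The Magnus coefficients of an element of the free group. -/
def mag : F →* Mag := FreeGroup.lift fun i => ⟨Pi.single i 1, fun _ => 0, 0⟩

theorem mag_of (i : Fin 3) : mag (FreeGroup.of i) = ⟨Pi.single i 1, fun _ => 0, 0⟩ :=
  FreeGroup.lift_apply_of

/-- The coefficient of `X_i`. -/
def cc (i : Fin 3) (w : F) : ℤ := (mag w).c i
/-- The coefficient of `X_1 X_j`. -/
def dd (j : Fin 3) (w : F) : ℤ := (mag w).d j
/-- The coefficient of `X_1 X_1 X_2`. -/
def tt (w : F) : ℤ := (mag w).t

theorem cc_mul (i : Fin 3) (u v : F) : cc i (u * v) = cc i u + cc i v := by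
  unfold cc; rw [map_mul, Mag.mul_c]
theorem dd_mul (j : Fin 3) (u v : F) : dd j (u * v) = dd j u + dd j v + cc 1 u * cc j v := by
  unfold cc dd; rw [map_mul, Mag.mul_d]
theorem tt_mul (u v : F) :
    tt (u * v) = tt u + tt v + dd 1 u * cc 2 v + cc 1 u * dd 2 v := by
  unfold cc dd tt; rw [map_mul, Mag.mul_t]
theorem cc_of (i j : Fin 3) : cc i (FreeGroup.of j) = if i = j then 1 else 0 := by
  unfold cc; rw [mag_of]; exact Pi.single_apply j 1 i
theorem dd_of (i j : Fin 3) : dd i (FreeGroup.of j) = 0 := by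
  unfold dd; rw [mag_of]
theorem tt_of (j : Fin 3) : tt (FreeGroup.of j) = 0 := by
  unfold tt; rw [mag_of]

/-- An additive function on the free group. -/
theorem add_eq {E : F → ℤ} (h : ∀ u v, E (u * v) = E u + E v) (w : F) :
    E w = ∑ i, cc i w * E (FreeGroup.of i) := by
  have h1 : E 1 = 0 := by
    have := h 1 1
    rw [mul_one] at this
    omega
  have hc1 : ∀ i, cc i 1 = 0 := by
    intro i; unfold cc; rw [map_one]; rfl
  have hinv : ∀ u, E u⁻¹ = - E u := by
    intro u
    have := h u u⁻¹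
    rw [mul_inv_cancel, h1] at this
    omega
  have hcinv : ∀ i u, cc i u⁻¹ = - cc i u := by
    intro i u
    unfold cc; rw [map_inv, Mag.inv_c]
  induction w using FreeGroup.induction_on with
  | C1 => rw [h1]; simp [hc1]
  | of j => simp only [cc_of]; simp
  | inv_of j _ => rw [hinv]; simp only [hcinv, cc_of]; simp
  | mul u v hu hv =>
    rw [h, hu, hv, ← Finset.sum_add_distrib]
    refine Finset.sum_congr rfl fun i _ => ?_
    rw [cc_mul]; ring

theorem add_eq' {E : F → ℤ} (h : ∀ u v, E (u * v) = E u + E v) (w : F) :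
    E w = cc 0 w * E (FreeGroup.of 0) + cc 1 w * E (FreeGroup.of 1) + cc 2 w * E (FreeGroup.of 2) := by
  rw [add_eq h, Fin.sum_univ_three]

/-- The exponent sum as a homomorphism. -/
def chi (i : Fin 3) : F →* Multiplicative ℤ where
  toFun w := Multiplicative.ofAdd (cc i w)
  map_one' := by unfold cc; rw [map_one]; rfl
  map_mul' u v := by rw [cc_mul]; rfl

theorem cc_ia {g : MulAut F} (hg : g ∈ IA 3) (i : Fin 3) (w : F) : cc i (g w) = cc i w := by
  have h1 : chi i (g w) = chi i w := by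
    rw [← Abelianization.lift_apply_of (chi i) (g w), hg w, Abelianization.lift_apply_of]
  exact Multiplicative.ofAdd.injective h1

theorem dd_ia {g : MulAut F} (hg : g ∈ IA 3) (j : Fin 3) (w : F) :
    dd j (g w) = dd j w + cc 0 w * dd j (g (FreeGroup.of 0)) + cc 1 w * dd j (g (FreeGroup.of 1)) +
      cc 2 w * dd j (g (FreeGroup.of 2)) := by
  have h := add_eq' (E := fun w => dd j (g w) - dd j w) (by
    intro u v
    rw [map_mul, dd_mul, dd_mul, cc_ia hg, cc_ia hg]; ring) w
  simp only [dd_of] at h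
  linear_combination h

theorem dd_one_eq (w : F) : 2 * dd 1 w = cc 1 w * cc 1 w - cc 1 w := by
  have h := add_eq' (E := fun w => 2 * dd 1 w - cc 1 w * cc 1 w + cc 1 w) (by
    intro u v
    rw [dd_mul, cc_mul]; ring) w
  simp only [dd_of, cc_of] at h
  simp at h
  linear_combination h

theorem dd_one_ia {g : MulAut F} (hg : g ∈ IA 3) (w : F) : dd 1 (g w) = dd 1 w := by
  have h1 := dd_one_eq w
  have h2 := dd_one_eq (g w)
  rw [cc_ia hg] at h2
  omega

theorem tt_ia {g : MulAut F} (hg : g ∈ IA 3) (w : F) :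
    tt (g w) = tt w + cc 0 w * tt (g (FreeGroup.of 0)) + cc 1 w * tt (g (FreeGroup.of 1)) +
      cc 2 w * tt (g (FreeGroup.of 2)) + dd 0 w * dd 2 (g (FreeGroup.of 0)) +
      dd 1 w * dd 2 (g (FreeGroup.of 1)) + dd 2 w * dd 2 (g (FreeGroup.of 2)) := by
  have h := add_eq' (E := fun w => tt (g w) - tt w - dd 0 w * dd 2 (g (FreeGroup.of 0)) -
      dd 1 w * dd 2 (g (FreeGroup.of 1)) - dd 2 w * dd 2 (g (FreeGroup.of 2))) (by
    intro u v
    rw [map_mul, tt_mul, tt_mul, cc_ia hg, cc_ia hg, dd_one_ia hg, dd_ia hg 2 v, dd_mul, dd_mul,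
      dd_mul]; ring) w
  simp only [dd_of, tt_of] at h
  linear_combination h

theorem dd_one_of {g : MulAut F} (hg : g ∈ IA 3) (j : Fin 3) : dd 1 (g (FreeGroup.of j)) = 0 := by
  rw [dd_one_ia hg, dd_of]

/-- The data on `IA_3`. -/
def data : CubicData (IA 3) where
  a g := dd 2 ((g : MulAut F) (FreeGroup.of 0))
  p g := dd 0 ((g : MulAut F) (FreeGroup.of 0))
  q g := dd 2 ((g : MulAut F) (FreeGroup.of 2))
  m g := tt ((g : MulAut F) (FreeGroup.of 0))
  a_mul g h := by
    rw [Subgroup.coe_mul, MulAut.mul_apply, dd_ia g.2, cc_ia h.2, cc_ia h.2, cc_ia h.2, cc_of,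
      cc_of, cc_of]
    simp; ring
  p_mul g h := by
    rw [Subgroup.coe_mul, MulAut.mul_apply, dd_ia g.2, cc_ia h.2, cc_ia h.2, cc_ia h.2, cc_of,
      cc_of, cc_of]
    simp; ring
  q_mul g h := by
    rw [Subgroup.coe_mul, MulAut.mul_apply, dd_ia g.2, cc_ia h.2, cc_ia h.2, cc_ia h.2, cc_of,
      cc_of, cc_of]
    simp; ring
  m_mul g h := by
    rw [Subgroup.coe_mul, MulAut.mul_apply, tt_ia g.2, cc_ia h.2, cc_ia h.2, cc_ia h.2, cc_of,
      cc_of, cc_of, dd_one_of h.2]
    simp; ring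

/-- The inclusion of the free group on the letters `1, 2`. -/
def jj : FreeGroup Bool →* F := FreeGroup.lift fun b => FreeGroup.of (if b then 2 else 1)

/-- The endomorphism `x_0 ↦ u x_0 v` which fixes `x_1, x_2`. -/
def en (u v : FreeGroup Bool) : F →* F :=
  FreeGroup.lift ![jj u * FreeGroup.of 0 * jj v, FreeGroup.of 1, FreeGroup.of 2]

theorem en_zero (u v : FreeGroup Bool) :
    en u v (FreeGroup.of 0) = jj u * FreeGroup.of 0 * jj v := FreeGroup.lift_apply_of
theorem en_one (u v : FreeGroup Bool) : en u v (FreeGroup.of 1) = FreeGroup.of 1 :=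
  FreeGroup.lift_apply_of
theorem en_two (u v : FreeGroup Bool) : en u v (FreeGroup.of 2) = FreeGroup.of 2 :=
  FreeGroup.lift_apply_of

theorem en_jj (u v w : FreeGroup Bool) : en u v (jj w) = jj w := by
  have : (en u v).comp jj = jj := by
    apply FreeGroup.ext_hom
    intro b
    cases b
    · change en u v (jj (FreeGroup.of false)) = jj (FreeGroup.of false)
      unfold jj
      rw [FreeGroup.lift_apply_of]
      exact en_one u v
    · change en u v (jj (FreeGroup.of true)) = jj (FreeGroup.of true)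
      unfold jj
      rw [FreeGroup.lift_apply_of]
      exact en_two u v
  exact DFunLike.congr_fun this w

theorem en_comp (u v u' v' : FreeGroup Bool) :
    (en u v).comp (en u' v') = en (u' * u) (v * v') := by
  apply FreeGroup.ext_hom
  intro i
  fin_cases i
  · change en u v (en u' v' (FreeGroup.of 0)) = en (u' * u) (v * v') (FreeGroup.of 0)
    rw [en_zero, en_zero, map_mul, map_mul, en_jj, en_jj, en_zero, map_mul, map_mul]
    simp only [mul_assoc]
  · change en u v (en u' v' (FreeGroup.of 1)) = en (u' * u) (v * v') (FreeGroup.of 1)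
    rw [en_one, en_one, en_one]
  · change en u v (en u' v' (FreeGroup.of 2)) = en (u' * u) (v * v') (FreeGroup.of 2)
    rw [en_two, en_two, en_two]

theorem en_id : en 1 1 = MonoidHom.id F := by
  apply FreeGroup.ext_hom
  intro i
  fin_cases i
  · change en 1 1 (FreeGroup.of 0) = FreeGroup.of 0
    rw [en_zero, map_one, one_mul, mul_one]
  · exact en_one 1 1
  · exact en_two 1 1

/-- The automorphism `x_0 ↦ u x_0 v` which fixes `x_1, x_2`. -/
def au (u v : FreeGroup Bool) : MulAut F :=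
  MonoidHom.toMulEquiv (en u v) (en u⁻¹ v⁻¹)
    (by rw [en_comp, mul_inv_cancel, inv_mul_cancel, en_id])
    (by rw [en_comp, inv_mul_cancel, mul_inv_cancel, en_id])

theorem au_apply (u v : FreeGroup Bool) (w : F) : au u v w = en u v w := rfl

theorem au_mul (u v u' v' : FreeGroup Bool) : au u v * au u' v' = au (u' * u) (v * v') := by
  apply MulEquiv.ext
  intro w
  change (en u v).comp (en u' v') w = en (u' * u) (v * v') w
  rw [en_comp]

theorem au_inv (u v : FreeGroup Bool) : (au u v)⁻¹ = au u⁻¹ v⁻¹ := by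
  rw [inv_eq_iff_mul_eq_one, au_mul, inv_mul_cancel, mul_inv_cancel]
  apply MulEquiv.ext
  intro w
  change en 1 1 w = w
  rw [en_id]; rfl

theorem au_mem {u v : FreeGroup Bool} (h : Abelianization.of (jj u * jj v) = 1) :
    au u v ∈ IA 3 := by
  intro w
  have : (Abelianization.of).comp (en u v) = (Abelianization.of : F →* Abelianization F) := by
    apply FreeGroup.ext_hom
    intro i
    fin_cases i
    · change Abelianization.of (en u v (FreeGroup.of 0)) = Abelianization.of (FreeGroup.of 0)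
      rw [map_mul] at h
      rw [en_zero, map_mul, map_mul, mul_right_comm, h, one_mul]
    · change Abelianization.of (en u v (FreeGroup.of 1)) = Abelianization.of (FreeGroup.of 1)
      rw [en_one]
    · change Abelianization.of (en u v (FreeGroup.of 2)) = Abelianization.of (FreeGroup.of 2)
      rw [en_two]
  exact DFunLike.congr_fun this w

/-- The commutator `[x_1, x_2]`. -/
def co : FreeGroup Bool := ⁅FreeGroup.of false, FreeGroup.of true⁆

theorem of_co : Abelianization.of (jj co) = 1 := by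
  unfold co
  rw [map_commutatorElement, map_commutatorElement, commutatorElement_eq_one_iff_mul_comm]
  exact mul_comm _ _

/-- `x_0 ↦ x_0 [x_1, x_2]`. -/
def ff : IA 3 := ⟨au 1 co, au_mem (by rw [map_one, one_mul, of_co])⟩
/-- `x_0 ↦ [x_1, x_2] x_0`. -/
def hh : IA 3 := ⟨au co 1, au_mem (by rw [map_one, mul_one, of_co])⟩
/-- `x_0 ↦ u x_0 u⁻¹`. -/
def kk (u : FreeGroup Bool) : IA 3 :=
  ⟨au u u⁻¹, au_mem (by rw [map_inv, mul_inv_cancel, map_one])⟩

theorem comm_one : ⁅ff, ⁅hh, kk (FreeGroup.of false)⁆⁆ = 1 := by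
  have h1 : (⁅hh, kk (FreeGroup.of false)⁆ : IA 3).1 =
      au (((FreeGroup.of false)⁻¹ * (co⁻¹ * (FreeGroup.of false * co)))) 1 := by
    change au co 1 * au (FreeGroup.of false) (FreeGroup.of false)⁻¹ * (au co 1)⁻¹ *
      (au (FreeGroup.of false) (FreeGroup.of false)⁻¹)⁻¹ = _
    rw [au_inv, au_inv, au_mul, au_mul, au_mul]
    congr 1
    group
  rw [commutatorElement_eq_one_iff_mul_comm]
  apply Subtype.ext
  rw [Subgroup.coe_mul, Subgroup.coe_mul, h1]
  change au 1 co * _ = _ * au 1 co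
  rw [au_mul, au_mul, mul_one, one_mul, mul_one, one_mul]

theorem ff_hh : ff⁻¹ * hh ∈ lcs (IA 3) 1 := by
  have h1 : ff⁻¹ * hh = (⁅kk (FreeGroup.of false)⁻¹, kk (FreeGroup.of true)⁻¹⁆)⁻¹ := by
    rw [commutatorElement_inv]
    apply Subtype.ext
    change (au 1 co)⁻¹ * au co 1 =
      au (FreeGroup.of true)⁻¹ (FreeGroup.of true)⁻¹⁻¹ *
      au (FreeGroup.of false)⁻¹ (FreeGroup.of false)⁻¹⁻¹ *
      (au (FreeGroup.of true)⁻¹ (FreeGroup.of true)⁻¹⁻¹)⁻¹ *
      (au (FreeGroup.of false)⁻¹ (FreeGroup.of false)⁻¹⁻¹)⁻¹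
    rw [au_inv, au_inv, au_inv, au_mul, au_mul, au_mul, au_mul]
    unfold co
    simp only [commutatorElement_def]
    congr 1
  rw [h1]
  refine inv_mem ?_
  rw [lcs, Subgroup.lowerCentralSeries_succ]
  exact Subgroup.commutator_mem_commutator (Subgroup.mem_top _) (Subgroup.mem_top _)

/-- **Theorem.** The Lie ring `E_0^*(IA_3)` of the lower central series of `IA_3` is not a free Lie
algebra modulo quadratic relations. -/
theorem result : ¬ IsQuadratic (IA 3) := by
  refine data.not_quad ff hh (kk (FreeGroup.of false)) ff_hh comm_one ?_ ?_ ?_ ?_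
  · change dd 2 (jj 1 * FreeGroup.of 0 * jj co) = 1
    decide
  · change dd 0 (jj 1 * FreeGroup.of 0 * jj co) - dd 2 (FreeGroup.of 2) = 0
    decide
  · change dd 2 (jj (FreeGroup.of false) * FreeGroup.of 0 * jj (FreeGroup.of false)⁻¹) = 0
    decide
  · change dd 0 (jj (FreeGroup.of false) * FreeGroup.of 0 * jj (FreeGroup.of false)⁻¹) -
      dd 2 (FreeGroup.of 2) = 1
    decide

end Pool.Agent.Results.MP_df4ecf_al.IAThreeNotQuadratic
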